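import Pool.Agent.H71.EX.XCurve

/-! # EX.GCurveX : the curve theorem for `c` columns in the form used by the class side -/

namespace H71.EX

open Polynomial H68.BB H71.EG
open H71.ES hiding dfD dfT dfY dfD_map dfT_map dfY_map rhs_map

variable {K : Type} [Field K] [CharZero K] [IsAlgClosed K] {r c : ℕ}

theorem gcurveX {D : Fin c → ND K r} {n : Fin c → ℕ} {k : ℕ} (hD : ∀ j, (D j).Ok (n j) k) (hn : ∀ j, 0 < n j)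
    (hk : 0 < k) (hr : ∑ j, n j ≤ r) (j0 : Fin c) {m0 : Fin c → GM r K} (hl : ∀ j, (m0 j).lam = (m0 j0).lam)
    (h0 : ∀ j, OnG (D j) k (m0 j)) (hy : ∀ j, (m0 j).y ≠ 0)
    (huv : ∀ j, ∃ i i' : ℕ, (m0 j).u.coeff i * (m0 j).v.coeff i' ≠ 0) :
    ∃ (cc : Fin c → GM r K[X]) (M : Multiset (Fin c → GM r (Om K))) (π0 π1 : Place K (Om K)),
      (∀ j, (cc j).lam = (cc j0).lam) ∧ (∀ j, (cc j).map (evalRingHom 0) = m0 j) ∧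
      (∀ j i, ((cc j).lam i).natDegree ≤ 1) ∧ M ≠ 0 ∧ (∀ m ∈ M, ∀ j, OnG (D j) k (m j)) ∧
      (∀ σ : Om K ≃ₐ[RatFunc K] Om K, M.map (fun m j => (m j).map (σ : Om K →+* Om K)) = M) ∧
      (∀ m ∈ M, ∀ j, RdG π0 (m j) (m0 j)) ∧ (∀ m ∈ M, ∃ j, ¬ BddG π1 (m j)) ∧
      (∀ m ∈ M, ∃ x : Om K, x ∉ π1.V ∧ ∀ j, ∃ s : Om K, m j = gpt (cc j) x s) := by
  obtain ⟨C, γ, M, π0, π1, hC, h1, h2, -, h4, h5, h6, h7⟩ :=
    xcurve hD hn hk hr j0 h0 (fun i j => (hl i).trans (hl j).symm) hy huv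
  refine ⟨C, M, π0, π1, fun j => hC.lam j j0, hC.at0, hC.dl, h1, h2, h4, h5, h6, fun m hm => ?_⟩
  obtain ⟨x, s, hx, rfl⟩ := h7 m hm
  exact ⟨x, hx, fun j => ⟨_, rfl⟩⟩

end H71.EX
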