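import Pool.Agent.H71.EX.XPen

/-! # EX.XCurve : the curve theorem for `c` columns with common parameters -/

namespace H71.EX

open Polynomial H68.BB H71.EG
open H71.ES hiding dfD dfT dfY dfD_map dfT_map dfY_map rhs_map

variable {K : Type} [Field K] [CharZero K] {r c : ℕ}

omit [CharZero K] in
private theorem ce_const {p : K[X]} (h : p.natDegree = 0) : p = C (p.eval 0) := by
  have h1 := eq_C_of_natDegree_eq_zero h
  rw [coeff_zero_eq_eval_zero] at h1
  exact h1

private theorem ce_poly {p : K[X][X]} {q : K[X]} (h : ∀ i, (p.coeff i).natDegree = 0)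
    (h0 : p.map (evalRingHom 0) = q) : p = q.map (algebraMap K K[X]) := by
  ext1 i
  rw [coeff_map, ← h0, coeff_map, coe_evalRingHom]
  exact ce_const (h i)

private theorem ce_y {y : K[X]} {y0 γ : K} {N : ℕ} (hy0 : y0 ≠ 0) (h0 : y.eval 0 = y0)
    (h : C (y0 ^ 2) = y ^ 2 + C γ * X ^ N) : y = C y0 := by
  have h1 : (C y0 - y) * (C y0 + y) = C γ * X ^ N := by
    have h2 : (C y0 - y) * (C y0 + y) = C (y0 ^ 2) - y ^ 2 := by
      rw [C_pow]
      ring
    rw [h2, h]
    ring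
  by_cases hγ : γ = 0
  · rw [hγ, C_0, zero_mul, mul_eq_zero] at h1
    rcases h1 with h1 | h1
    · exact (sub_eq_zero.mp h1).symm
    · exfalso
      have h2 := congrArg (eval 0) h1
      rw [eval_add, eval_C, h0, eval_zero] at h2
      have h3 : (2 : K) * y0 = 0 := by rw [two_mul]; exact h2
      rcases mul_eq_zero.mp h3 with h4 | h4
      · exact two_ne_zero h4
      · exact hy0 h4
  · have h2 : (C y0 + y) ∣ X ^ N := by
      have h3 : (X : K[X]) ^ N = C γ⁻¹ * ((C y0 - y) * (C y0 + y)) := by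
        rw [h1, ← mul_assoc, ← C_mul, inv_mul_cancel₀ hγ, C_1, one_mul]
      rw [h3]
      exact ⟨C γ⁻¹ * (C y0 - y), by ring⟩
    obtain ⟨i, -, hi⟩ := (dvd_prime_pow prime_X N).1 h2
    have hi0 : i = 0 := by
      by_contra hne
      have h4 : (X : K[X]) ∣ C y0 + y := (dvd_pow_self X hne).trans hi.symm.dvd
      have h5 : (C y0 + y).eval 0 = 0 := by
        obtain ⟨r, hr⟩ := h4
        rw [hr, eval_mul, eval_X, zero_mul]
      rw [eval_add, eval_C, h0] at h5
      have h3 : (2 : K) * y0 = 0 := by rw [two_mul]; exact h5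
      rcases mul_eq_zero.mp h3 with h4 | h4
      · exact two_ne_zero h4
      · exact hy0 h4
    rw [hi0, pow_zero] at hi
    have h6 : IsUnit (C y0 + y) := hi.symm.isUnit isUnit_one
    have h7 := natDegree_eq_zero_of_isUnit h6
    have h8 := ce_const h7
    have h9 : (C y0 + y).eval 0 = y0 + y0 := by rw [eval_add, eval_C, h0]
    rw [h9] at h8
    have h10 : y = C (y0 + y0) - C y0 := by
      rw [← h8]
      ring
    rw [h10, C_add]
    ring

/-- a column whose parameters and invariants are constant is constant -/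
theorem rigid_col {n k : ℕ} {D : ND K r} {m0 : GM r K} (h0 : OnG D k m0) {c : GM r K[X]} {γ : K}
    (heqy : c.rhs D = c.y ^ 2 + C γ * X ^ (6 * n)) (hat : c.map (evalRingHom 0) = m0)
    (hy : m0.y ≠ 0) {i j : ℕ} (huv : m0.u.coeff i * m0.v.coeff j ≠ 0)
    (cq : ∀ i, (c.lam i).natDegree = 0) (cx : c.x.natDegree = 0) (cs : ∀ i, (c.s.coeff i).natDegree = 0)
    (ct : ∀ i, (c.t.coeff i).natDegree = 0) (cuv : ∀ i j, (c.u.coeff i * c.v.coeff j).natDegree = 0) :
    c = m0.const := by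
  have eq : ∀ i, (c.lam i).eval 0 = m0.lam i := by
    intro i
    rw [← hat]
    rfl
  have ex : c.x.eval 0 = m0.x := by rw [← hat]; rfl
  have ey : c.y.eval 0 = m0.y := by rw [← hat]; rfl
  have es : c.s.map (evalRingHom 0) = m0.s := by rw [← hat]; rfl
  have et : c.t.map (evalRingHom 0) = m0.t := by rw [← hat]; rfl
  have eu : c.u.map (evalRingHom 0) = m0.u := by rw [← hat]; rfl
  have ev : c.v.map (evalRingHom 0) = m0.v := by rw [← hat]; rfl
  have hui : (c.u.coeff i).eval 0 = m0.u.coeff i := by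
    rw [← eu, coeff_map, coe_evalRingHom]
  have hvj : (c.v.coeff j).eval 0 = m0.v.coeff j := by
    rw [← ev, coeff_map, coe_evalRingHom]
  have hu0 : c.u.coeff i ≠ 0 := by
    intro h1
    rw [h1, eval_zero] at hui
    exact huv (by rw [← hui, zero_mul])
  have hv0 : c.v.coeff j ≠ 0 := by
    intro h1
    rw [h1, eval_zero] at hvj
    exact huv (by rw [← hvj, mul_zero])
  have hcv : ∀ j', (c.v.coeff j').natDegree = 0 := by
    intro j'
    by_cases h1 : c.v.coeff j' = 0
    · rw [h1, natDegree_zero]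
    · have h2 := cuv i j'
      rw [natDegree_mul hu0 h1] at h2
      omega
  have hcu : ∀ i', (c.u.coeff i').natDegree = 0 := by
    intro i'
    by_cases h1 : c.u.coeff i' = 0
    · rw [h1, natDegree_zero]
    · have h2 := cuv i' j
      rw [natDegree_mul h1 hv0] at h2
      omega
  have eq' : c.lam = m0.const.lam := by
    funext i
    rw [ce_const (cq i), eq i]
    rfl
  have et' : c.t = m0.const.t := ce_poly ct et
  have es' : c.s = m0.const.s := ce_poly cs es
  have eu' : c.u = m0.const.u := ce_poly hcu eu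
  have ev' : c.v = m0.const.v := ce_poly hcv ev
  have ex' : c.x = m0.const.x := by
    rw [ce_const cx, ex]
    rfl
  have hr : c.rhs D = m0.const.rhs D := by
    unfold GM.rhs
    rw [eq', et', ex']
  have hr2 : m0.const.rhs D = C (m0.rhs D) := EG.rhs_map D m0 (Algebra.ofId K K[X])
  have hy2 : C (m0.y ^ 2) = c.y ^ 2 + C γ * X ^ (6 * n) := by
    rw [h0.eqy, ← hr2, ← hr, heqy]
  have ey' : c.y = m0.const.y := ce_y hy ey hy2
  exact GM.ext eq' ex' ey' es' et' eu' ev'

variable [IsAlgClosed K]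

/-- THE CURVE THEOREM FOR `c` COLUMNS: norm data `D i` of weights `n i` in the same `r` parameters, `∑ n i ≤ r`; `i0` any column -/
theorem xcurve {D : Fin c → ND K r} {n : Fin c → ℕ} {k : ℕ} (hD : ∀ i, (D i).Ok (n i) k) (hn : ∀ i, 0 < n i)
    (hk : 0 < k) (hr : ∑ i, n i ≤ r) (i0 : Fin c) {m0 : Fin c → GM r K} (h0 : ∀ i, OnG (D i) k (m0 i))
    (hl : ∀ i j, (m0 i).lam = (m0 j).lam) (hy : ∀ i, (m0 i).y ≠ 0)
    (huv : ∀ i, ∃ a b : ℕ, (m0 i).u.coeff a * (m0 i).v.coeff b ≠ 0) :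
    ∃ (C : Fin c → GM r K[X]) (γ : K) (M : Multiset (Fin c → GM r (Om K))) (π0 π1 : Place K (Om K)),
      IsX D n k i0 m0 C γ ∧ M ≠ 0 ∧ (∀ m ∈ M, ∀ i, OnG (D i) k (m i)) ∧
      (∀ m ∈ M, ∀ i j, (m i).lam = (m j).lam) ∧
      (∀ σ : Om K ≃ₐ[RatFunc K] Om K, M.map (fun m i => (m i).map (σ : Om K →+* Om K)) = M) ∧
      (∀ m ∈ M, ∀ i, RdG π0 (m i) (m0 i)) ∧ (∀ m ∈ M, ∃ i, ¬ BddG π1 (m i)) ∧
      (∀ m ∈ M, ∃ x s : Om K, x ∉ π1.V ∧ m = xpt i0 C x s) := by
  obtain ⟨C, γ, hc⟩ := exists_xcrv hD hn hk hr i0 h0 hl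
  obtain ⟨π0, π1, hp0, hp1⟩ := places (K := K)
  have key : ∀ x s : Om K, x ∉ π1.V → ∃ i, ¬ BddG π1 (xpt i0 C x s i) := by
    intro x s hx
    by_contra hcon
    push Not at hcon
    obtain ⟨i, hi⟩ := hc.ne
    apply hi
    have hB := hcon i
    obtain ⟨a, b, hab⟩ := huv i
    refine rigid_col (h0 i) (hc.eqy i) (hc.at0 i) (hy i) hab (fun i' => ?_) ?_ (fun i' => ?_) (fun i' => ?_)
      (fun i' j' => ?_)
    · exact natDegree_of_mem hx (hB.lam i')
    · exact natDegree_of_mem hx hB.x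
    · refine natDegree_of_mem hx ?_
      have h1 := hB.s i'
      have h2 : (xpt i0 C x s i).s.coeff i' = aeval x ((C i).s.coeff i') := coeff_map _ _
      rwa [h2] at h1
    · refine natDegree_of_mem hx ?_
      have h1 := hB.t i'
      have h2 : (xpt i0 C x s i).t.coeff i' = aeval x ((C i).t.coeff i') := coeff_map _ _
      rwa [h2] at h1
    · refine natDegree_of_mem hx ?_
      have h1 := hB.uv i' j'
      have h2 : (xpt i0 C x s i).u.coeff i' = aeval x ((C i).u.coeff i') := coeff_map _ _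
      have h3 : (xpt i0 C x s i).v.coeff j' = aeval x ((C i).v.coeff j') := coeff_map _ _
      rw [h2, h3, ← map_mul] at h1
      exact h1
  obtain ⟨s, R, hR0, hRs, hs0, hR⟩ := xroots (hn i0) (hc.dy i0) γ hp0 hp1
  refine ⟨C, γ, R.map (fun x => xpt i0 C x s), π0, π1, hc, ?_, ?_, ?_, ?_, ?_, ?_, ?_⟩
  · intro h2
    rw [Multiset.map_eq_zero] at h2
    exact hR0 h2
  · intro m hm i
    obtain ⟨x, hx, rfl⟩ := Multiset.mem_map.1 hm
    exact xpt_on hc (hR x hx).2.2 i
  · intro m hm i j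
    obtain ⟨x, hx, rfl⟩ := Multiset.mem_map.1 hm
    exact xpt_lam hc x s i j
  · intro σ
    rw [Multiset.map_map]
    have h2 : (R.map σ).map (fun x => xpt i0 C x s) = R.map (fun x => xpt i0 C x s) := by
      rw [(hRs σ).2]
    rw [Multiset.map_map] at h2
    rw [← h2]
    refine Multiset.map_congr rfl (fun x _ => ?_)
    show (fun i => (xpt i0 C x s i).map (σ : Om K →+* Om K)) = xpt i0 C (σ x) s
    rw [xpt_sig, (hRs σ).1]
  · intro m hm i
    obtain ⟨x, hx, rfl⟩ := Multiset.mem_map.1 hm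
    exact xpt_rd hc (hR x hx).1 hs0 i
  · intro m hm
    obtain ⟨x, hx, rfl⟩ := Multiset.mem_map.1 hm
    exact key x s (hR x hx).2.1
  · intro m hm
    obtain ⟨x, hx, rfl⟩ := Multiset.mem_map.1 hm
    exact ⟨x, s, (hR x hx).2.1, rfl⟩

end H71.EX
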