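import Pool.Agent.H71.EX.XSol

/-! # EX.XPen : the pencil for `c` columns -/

namespace H71.EX

open Polynomial H68.BB H67.KH H71.EG
open H71.ES hiding dfD dfT dfY dfD_map dfT_map dfY_map rhs_map

variable {K : Type} [Field K] {r c : ℕ}

private theorem rd_cst {π : Place K (Om K)} (c : K) : Rd π.V π.φ (algebraMap K (Om K) c) c :=
  π.const c

/-- the point of the curve at the parameter `x`, with `y` increased by `s` in column `i0` -/
noncomputable def xpt (i0 : Fin c) (C : Fin c → GM r K[X]) (x s : Om K) : Fin c → GM r (Om K) :=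
  fun i => gpt (C i) x (if i = i0 then s else 0)

private theorem gpt_on {k : ℕ} {D : ND K r} {c : GM r K[X]} (h : OnG0 D k c) (x s : Om K) :
    OnG0 D k (gpt c x s) := by
  have h1 : OnG0 D k (c.map ((aeval x : K[X] →ₐ[K] Om K) : K[X] →+* Om K)) := h.map (aeval x)
  exact ⟨⟨h1.pal.dt, h1.pal.du, h1.pal.dv, h1.pal.ds, h1.pal.pt, h1.pal.pu, h1.pal.pv, h1.pal.ps⟩, h1.det, h1.tm1⟩

private theorem gpt_rhs {n : ℕ} {D : ND K r} {c : GM r K[X]} {γ : K}
    (h : c.rhs D = c.y ^ 2 + Polynomial.C γ * X ^ (6 * n)) (x s : Om K) :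
    (gpt c x s).rhs D = (aeval x c.y) ^ 2 + algebraMap K (Om K) γ * x ^ (6 * n) := by
  have h1 := EG.rhs_map D c (aeval x : K[X] →ₐ[K] Om K)
  have h2 : (gpt c x s).rhs D = (c.map ((aeval x : K[X] →ₐ[K] Om K) : K[X] →+* Om K)).rhs D := rfl
  rw [h2, h1, h, map_add, map_mul, map_pow, map_pow, aeval_C, aeval_X]

theorem gpt_sig (σ : Om K ≃ₐ[RatFunc K] Om K) (c : GM r K[X]) (x s : Om K) :
    (gpt c x s).map (σ : Om K →+* Om K) = gpt c (σ x) (σ s) := by
  have h1 := map_aeval_sigma σ x c.md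
  have hy : σ (aeval x c.y) = aeval (σ x) c.y := congrArg Mdl.y h1
  have hl : ∀ i, σ (aeval x (c.lam i)) = aeval (σ x) (c.lam i) := by
    intro i
    have h2 := map_aeval_sigma σ x (⟨1, c.lam i, 0, 0, 0, 0, 0⟩ : Mdl K[X])
    exact congrArg Mdl.x h2
  have e2 := congrArg Mdl.x h1
  have e4 := congrArg Mdl.s h1
  have e5 := congrArg Mdl.t h1
  have e6 := congrArg Mdl.u h1
  have e7 := congrArg Mdl.v h1
  refine GM.ext (funext hl) e2 ?_ e4 e5 e6 e7
  change σ (aeval x c.y + s) = aeval (σ x) c.y + σ s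
  rw [map_add, hy]

theorem xpt_sig (σ : Om K ≃ₐ[RatFunc K] Om K) (i0 : Fin c) (C : Fin c → GM r K[X]) (x s : Om K) :
    (fun i => (xpt i0 C x s i).map (σ : Om K →+* Om K)) = xpt i0 C (σ x) (σ s) := by
  funext i
  show (gpt (C i) x (if i = i0 then s else 0)).map (σ : Om K →+* Om K) = gpt (C i) (σ x) (if i = i0 then σ s else 0)
  rw [gpt_sig]
  congr 1
  split_ifs
  · rfl
  · exact map_zero σ

private theorem gpt_rd {m0 : GM r K} {c : GM r K[X]} (h : c.map (evalRingHom 0) = m0)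
    {π0 : Place K (Om K)} {x s : Om K} (hx : Rd π0.V π0.φ x 0) (hs : Rd π0.V π0.φ s 0) : RdG π0 (gpt c x s) m0 := by
  have h1 := RdM_of_rd hx c.md
  have h3 : c.md.map (evalRingHom 0) = m0.md := by
    rw [← md_map, h]
  rw [h3] at h1
  have hl : ∀ i, Rd π0.V π0.φ (aeval x (c.lam i)) (m0.lam i) := by
    intro i
    have h4 := (RdM_of_rd hx (⟨1, c.lam i, 0, 0, 0, 0, 0⟩ : Mdl K[X])).x
    have h5 : (c.lam i).eval 0 = m0.lam i := congrFun (congrArg GM.lam h) i
    rw [← h5]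
    exact h4
  refine ⟨hl, h1.x, ?_, h1.s, h1.t, h1.u, h1.v⟩
  have h2 := h1.y.add hs
  rw [add_zero] at h2
  exact h2

theorem xpt_rd {D : Fin c → ND K r} {n : Fin c → ℕ} {k : ℕ} {i0 : Fin c} {m0 : Fin c → GM r K}
    {C : Fin c → GM r K[X]} {γ : K} (h : IsX D n k i0 m0 C γ) {π0 : Place K (Om K)} {x s : Om K}
    (hx : Rd π0.V π0.φ x 0) (hs : Rd π0.V π0.φ s 0) (i : Fin c) : RdG π0 (xpt i0 C x s i) (m0 i) := by
  refine gpt_rd (h.at0 i) hx ?_
  split_ifs
  · exact hs
  · exact Rd.zero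

theorem xpt_lam {D : Fin c → ND K r} {n : Fin c → ℕ} {k : ℕ} {i0 : Fin c} {m0 : Fin c → GM r K}
    {C : Fin c → GM r K[X]} {γ : K} (h : IsX D n k i0 m0 C γ) (x s : Om K) (i j : Fin c) :
    (xpt i0 C x s i).lam = (xpt i0 C x s j).lam := by
  funext l
  show aeval x ((C i).lam l) = aeval x ((C j).lam l)
  rw [h.lam i j]

/-- the point is on the model in all columns -/
theorem xpt_on {D : Fin c → ND K r} {n : Fin c → ℕ} {k : ℕ} {i0 : Fin c} {m0 : Fin c → GM r K}
    {C : Fin c → GM r K[X]} {γ : K} (h : IsX D n k i0 m0 C γ) {x s : Om K}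
    (hs : algebraMap K (Om K) γ * x ^ (6 * n i0) - 2 * s * aeval x (C i0).y - s ^ 2 = 0) (i : Fin c) :
    OnG (D i) k (xpt i0 C x s i) := by
  refine ⟨gpt_on (h.on i) _ _, ?_⟩
  have h1 : (xpt i0 C x s i).rhs (D i) = _ := gpt_rhs (h.eqy i) x (if i = i0 then s else 0)
  rw [h1]
  show (aeval x (C i).y + (if i = i0 then s else 0)) ^ 2 = _
  by_cases hi : i = i0
  · subst hi
    rw [if_pos rfl, if_pos rfl]
    linear_combination -hs
  · rw [if_neg hi, if_neg hi, map_zero]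
    ring

/-- the parameter values of the pencil -/
theorem xroots [IsAlgClosed K] [CharZero K] {n : ℕ} (hn : 0 < n) {y : K[X]} (hy : y.natDegree ≤ 3 * n) (γ : K)
    {π0 π1 : Place K (Om K)} (h0 : Rd π0.V π0.φ (lam K) 0) (h1 : lam K ∉ π1.V) :
    ∃ (s : Om K) (R : Multiset (Om K)), R ≠ 0 ∧ (∀ σ : Om K ≃ₐ[RatFunc K] Om K, σ s = s ∧ R.map σ = R) ∧
      Rd π0.V π0.φ s 0 ∧ ∀ x ∈ R, Rd π0.V π0.φ x 0 ∧ x ∉ π1.V ∧
        algebraMap K (Om K) γ * x ^ (6 * n) - 2 * s * aeval x y - s ^ 2 = 0 := by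
  by_cases hγ : γ = 0
  · subst hγ
    refine ⟨0, {lam K}, Multiset.singleton_ne_zero _, fun σ => ⟨map_zero σ, ?_⟩, Rd.zero, fun x hx => ?_⟩
    · rw [Multiset.map_singleton, lam_sigma]
    · rw [Multiset.mem_singleton] at hx
      subst hx
      refine ⟨h0, h1, ?_⟩
      rw [map_zero]
      ring
  have := π1.isLocal
  set γ' : Om K := algebraMap K (Om K) γ with hγ'
  set G : (Om K)[X] := C γ' * X ^ (6 * n) - C (2 * lam K) * (y.map (algebraMap K (Om K))) - C (lam K ^ 2) with hG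
  have hcoeff : ∀ i, G.coeff i = γ' * (if i = 6 * n then 1 else 0) - 2 * lam K * algebraMap K (Om K) (y.coeff i) -
      (if i = 0 then lam K ^ 2 else 0) := by
    intro i
    rw [hG, coeff_sub, coeff_sub, coeff_C_mul, coeff_C_mul, coeff_X_pow, coeff_map, coeff_C]
  have hγ0 : γ' ≠ 0 := by
    rw [hγ']
    exact (_root_.map_ne_zero _).2 hγ
  have htop : G.coeff (6 * n) = γ' := by
    rw [hcoeff, if_pos rfl, if_neg (by omega), coeff_eq_zero_of_natDegree_lt (lt_of_le_of_lt hy (by omega)), map_zero]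
    ring
  have hG0 : G ≠ 0 := by
    intro h2
    rw [h2, coeff_zero] at htop
    exact hγ0 htop.symm
  have hdle : G.natDegree ≤ 6 * n := by
    rw [natDegree_le_iff_coeff_eq_zero]
    intro i hi
    rw [hcoeff, if_neg (by omega), if_neg (by omega), coeff_eq_zero_of_natDegree_lt (lt_of_le_of_lt hy (by omega)), map_zero]
    ring
  have hdeg : G.natDegree = 6 * n := le_antisymm hdle (le_natDegree_of_ne_zero (by rw [htop]; exact hγ0))
  have heval : ∀ x ∈ G.roots, γ' * x ^ (6 * n) - 2 * lam K * aeval x y - lam K ^ 2 = 0 := by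
    intro x hx
    have h2 := (mem_roots hG0).1 hx
    rw [IsRoot, hG, eval_sub, eval_sub, eval_mul, eval_mul, eval_C, eval_C, eval_C, eval_pow, eval_X,
      eval_map_algebraMap] at h2
    exact h2
  have hred : ∀ x ∈ G.roots, Rd π0.V π0.φ x 0 := by
    intro x hx
    have hp0 : (C γ * X ^ (6 * n) : K[X]) ≠ 0 := mul_ne_zero (C_ne_zero.2 hγ) (pow_ne_zero _ X_ne_zero)
    have h2 : Multiset.Rel (Rd π0.V π0.φ) G.roots (C γ * X ^ (6 * n) : K[X]).roots := by
      refine roots_rd hp0 (fun i => ?_) ?_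
      · have e : (C γ * X ^ (6 * n) : K[X]).coeff i = γ * (if i = 6 * n then 1 else 0) - 2 * 0 * y.coeff i -
            (if i = 0 then 0 ^ 2 else 0) := by
          rw [coeff_C_mul, coeff_X_pow]
          split_ifs <;> ring
        rw [hcoeff, e]
        refine (((rd_cst (π := π0) γ).mul ?_).sub ((Rd.two.mul h0).mul (rd_cst (π := π0) _))).sub ?_
        · split_ifs
          · exact Rd.one
          · exact Rd.zero
        · split_ifs
          · exact h0.pow 2
          · exact Rd.zero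
      · rw [natDegree_C_mul_X_pow _ _ hγ]
        exact hdle
    obtain ⟨y, hy, hxy⟩ := Multiset.exists_mem_of_rel_of_mem h2 hx
    have h3 := (mem_roots hp0).1 hy
    rw [IsRoot, eval_mul, eval_C, eval_pow, eval_X] at h3
    have h4 : y = 0 := by
      rcases mul_eq_zero.1 h3 with h4 | h4
      · exact absurd h4 hγ
      · exact pow_eq_zero_iff (by omega) |>.1 h4
    rwa [h4] at hxy
  have hnot : ∀ x ∈ G.roots, x ∉ π1.V := by
    intro x hx hxV
    obtain ⟨x', hx'⟩ := rd_of_mem hxV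
    have hl : Rd π1.V π1.φ (lam K)⁻¹ 0 := Rd.inv_zero h1
    have h2 := heval x hx
    have hl0 : lam K ≠ 0 := lam_ne_zero
    have h3 : (1 : Om K) = (lam K)⁻¹ ^ 2 * (γ' * x ^ (6 * n)) - 2 * (lam K)⁻¹ * aeval x y := by
      field_simp
      linear_combination -h2
    have h4 : Rd π1.V π1.φ ((lam K)⁻¹ ^ 2 * (γ' * x ^ (6 * n)) - 2 * (lam K)⁻¹ * aeval x y)
        (0 ^ 2 * (γ * x' ^ (6 * n)) - 2 * 0 * y.eval x') :=
      ((hl.pow 2).mul ((rd_cst (π := π1) γ).mul (hx'.pow _))).sub ((Rd.two.mul hl).mul (rd_aeval hx' _))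
    rw [← h3] at h4
    have h5 := Rd.one.unique h4
    simp at h5
  refine ⟨lam K, G.roots, ?_, fun σ => ⟨lam_sigma σ, ?_⟩, h0, fun x hx => ⟨hred x hx, hnot x hx, heval x hx⟩⟩
  · obtain ⟨x, hx⟩ := IsAlgClosed.exists_root G (by
      intro h2
      have := natDegree_eq_of_degree_eq_some (n := 0) h2
      omega)
    intro h2
    have h3 := (mem_roots hG0).2 hx
    rw [h2] at h3
    exact absurd h3 (Multiset.notMem_zero _)
  · have hGs : G.map (σ : Om K →+* Om K) = G := by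
      ext i
      rw [coeff_map, hcoeff]
      have hs : ∀ c : K, (σ : Om K →+* Om K) (algebraMap K (Om K) c) = algebraMap K (Om K) c := sigma_cst σ
      have hl : (σ : Om K →+* Om K) (lam K) = lam K := lam_sigma σ
      rw [map_sub, map_sub, map_mul, map_mul, map_mul, hs, hγ', hs, hl, map_ofNat]
      congr 2
      · split_ifs <;> simp
      · split_ifs
        · rw [map_pow, hl]
        · rw [map_zero]
    rw [roots_sigma, hGs]

end H71.EX
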