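import Pool.Agent.H71.EG.GCurve

/-! # EX.XSol : curves of `c`-tuples of model points with common parameters exist

`c` columns, column `i` with norm data `D i` of weight `n i`, the same `k` and the same parameters `lam` for all columns; `∑ n i ≤ r`.  The equation of `y` holds up to
`γ τ^(6n)` in one column `i0`, exactly in the others. -/

namespace H71.EX

open Polynomial H68.BB H71.EG
open H71.ES hiding dfD dfT dfY dfD_map dfT_map dfY_map

variable {K : Type} [Field K] {r c : ℕ}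

/-- a nonconstant curve of `c`-tuples of model points through `m0`, with common parameters -/
structure IsX (D : Fin c → ND K r) (n : Fin c → ℕ) (k : ℕ) (i0 : Fin c) (m0 : Fin c → GM r K) (C : Fin c → GM r K[X])
    (γ : K) : Prop where
  on : ∀ i, OnG0 (D i) k (C i)
  eqy : ∀ i, (C i).rhs (D i) = (C i).y ^ 2 + Polynomial.C (if i = i0 then γ else 0) * X ^ (6 * n i)
  at0 : ∀ i, (C i).map (evalRingHom 0) = m0 i
  dl : ∀ i j, ((C i).lam j).natDegree ≤ 1
  lam : ∀ i j, (C i).lam = (C j).lam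
  dy : ∀ i, (C i).y.natDegree ≤ 3 * n i
  ne : ∃ i, C i ≠ (m0 i).const

/-- the unknowns -/
abbrev XU (r : ℕ) {c : ℕ} (n : Fin c → ℕ) (k : ℕ) : Type :=
  Fin r ⊕ (Σ i : Fin c, (Fin (2 * n i) ⊕ Fin (3 * n i) ⊕ (Fin (6 * n i) × UT k)))

/-- the equations -/
abbrev XE {c : ℕ} (n : Fin c → ℕ) (k : ℕ) (i0 : Fin c) : Type := (Σ i : Fin c, EE (n i) k) ⊕ {i : Fin c // i ≠ i0}

section
variable {R S : Type} [CommRing R] [CommRing S] [Algebra K R] [Algebra K S]

/-- the unknowns of one column -/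
def zc {n : Fin c → ℕ} {k : ℕ} (z : XU r n k → R) (i : Fin c) : GU r (n i) k → R :=
  Sum.elim (fun j => z (.inl j)) (fun e => z (.inr ⟨i, e⟩))

/-- the equations of all columns -/
noncomputable def xeqn (D : Fin c → ND K r) (n : Fin c → ℕ) (k : ℕ) (i0 : Fin c) (m0 : Fin c → GM r K) (z : XU r n k → R) :
    XE n k i0 → R
  | .inl ⟨i, e⟩ => geqn (D i) (n i) k (gcrv (n i) k (m0 i) (zc z i)) e
  | .inr i => (dfY (D i.1) (gcrv (n i.1) k (m0 i.1) (zc z i.1))).coeff (6 * n i.1)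

omit [Algebra K R] [Algebra K S] in
theorem zc_map {n : Fin c → ℕ} {k : ℕ} (z : XU r n k → R) (f : R → S) (i : Fin c) :
    (fun e => f (zc z i e)) = zc (fun e => f (z e)) i := by
  funext e
  rcases e with e | e <;> rfl

theorem xeqn_nat {D : Fin c → ND K r} {n : Fin c → ℕ} {k : ℕ} {i0 : Fin c} (m0 : Fin c → GM r K) (z : XU r n k → R)
    (f : R →ₐ[K] S) (e : XE n k i0) :
    xeqn D n k i0 m0 (fun i => f (z i)) e = f (xeqn D n k i0 m0 z e) := by
  rcases e with ⟨i, e⟩ | i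
  · have h := geqn_nat (D := D i) (m0 i) (zc z i) f e
    rw [zc_map z f i] at h
    exact h
  · have hf : (mapRingHom (f : R →+* S)) = ((mapAlgHom f : R[X] →ₐ[K] S[X]) : R[X] →+* S[X]) := rfl
    have h := gcrv_nat (m0 i.1) (zc z i.1) f
    rw [zc_map z f i.1, hf] at h
    show (dfY (D i.1) (gcrv (n i.1) k (m0 i.1) (zc (fun e => f (z e)) i.1))).coeff (6 * n i.1) = _
    rw [← h, dfY_map]
    have h3 : (mapAlgHom f : R[X] →ₐ[K] S[X]) (dfY (D i.1) (gcrv (n i.1) k (m0 i.1) (zc z i.1))) =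
      (dfY (D i.1) (gcrv (n i.1) k (m0 i.1) (zc z i.1))).map (f : R →+* S) := rfl
    rw [h3, coeff_map]
    rfl

end

theorem xcard_lt {n : Fin c → ℕ} {k : ℕ} {i0 : Fin c} (hn : ∀ i, 0 < n i) (hr : ∑ i, n i ≤ r) :
    Fintype.card (XE n k i0) < Fintype.card (XU r n k) := by
  have h1 : ∀ i, Fintype.card (EE (n i) k) + 1 = k * (12 * n i) + 12 * n i := by
    intro i
    have h := hn i
    simp only [EE, Fintype.card_sum, Fintype.card_prod, Fintype.card_fin]
    omega
  have h2 : ∀ i, Fintype.card (Fin (2 * n i) ⊕ Fin (3 * n i) ⊕ (Fin (6 * n i) × UT k)) + n i = k * (12 * n i) + 12 * n i := by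
    intro i
    simp only [UT, Fintype.card_sum, Fintype.card_prod, Fintype.card_fin]
    have : k / 2 + 1 + ((k + 1) / 2 + ((k + 1) / 2 + k / 2)) = 2 * k + 1 := by omega
    rw [this]
    have h3 : 6 * n i * (2 * k + 1) = k * (12 * n i) + 6 * n i := by ring
    rw [h3]
    omega
  have h3 : Fintype.card (XE n k i0) = ∑ i, Fintype.card (EE (n i) k) + Fintype.card {i : Fin c // i ≠ i0} := by
    rw [Fintype.card_sum, Fintype.card_sigma]
  have h4 : Fintype.card (XU r n k) = r + ∑ i, Fintype.card (Fin (2 * n i) ⊕ Fin (3 * n i) ⊕ (Fin (6 * n i) × UT k)) := by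
    rw [Fintype.card_sum, Fintype.card_sigma, Fintype.card_fin]
  have h5 : Fintype.card {i : Fin c // i ≠ i0} < c := by
    have h := Fintype.card_subtype_lt (p := fun i : Fin c => i ≠ i0) (x := i0) (by simp)
    rwa [Fintype.card_fin] at h
  have h6 : ∑ i, Fintype.card (EE (n i) k) + c = ∑ i, (k * (12 * n i) + 12 * n i) := by
    rw [← Finset.sum_congr rfl (fun i _ => h1 i), Finset.sum_add_distrib]
    simp
  have h7 : ∑ i, Fintype.card (Fin (2 * n i) ⊕ Fin (3 * n i) ⊕ (Fin (6 * n i) × UT k)) + ∑ i, n i =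
      ∑ i, (k * (12 * n i) + 12 * n i) := by
    rw [← Finset.sum_congr rfl (fun i _ => h2 i), Finset.sum_add_distrib]
  rw [h3, h4]
  omega

private theorem zero_of_coeff {p : K[X]} {d : ℕ} (hd : p.natDegree ≤ d) (h0 : p.eval 0 = 0)
    (h : ∀ j : Fin d, p.coeff (j + 1) = 0) : p = 0 := by
  ext i
  rw [coeff_zero]
  rcases i with _ | i
  · rw [coeff_zero_eq_eval_zero, h0]
  · by_cases hi : i < d
    · exact h ⟨i, hi⟩
    · exact coeff_eq_zero_of_natDegree_lt (by omega)

theorem dfY_gcrv_zero {D : ND K r} {n k : ℕ} {m0 : GM r K} (h : OnG D k m0) (i : ℕ) :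
    (dfY D (gcrv n k m0 (fun _ => (0 : K)))).coeff i = 0 := by
  have hc : gcrv n k m0 (fun _ => (0 : K)) = m0.map ((Algebra.ofId K K[X] : K →ₐ[K] K[X]) : K →+* K[X]) := by
    refine GM.ext ?_ ?_ ?_ ?_ ?_ ?_ ?_
    · funext i
      simp [gcrv, GM.map]
    · simp [gcrv, GM.map]
    · simp [gcrv, GM.map]
    · simp [gcrv, GM.map, symp]
    · simp [gcrv, GM.map, symp]
    · simp [gcrv, GM.map, symp]
    · simp [gcrv, GM.map, symp]
  have hy : dfY D m0 = 0 := by
    unfold dfY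
    rw [h.eqy, sub_self]
  rw [hc, dfY_map, hy, map_zero, coeff_zero]

/-- one column: if all equations hold -/
theorem col_of_eqn [IsAlgClosed K] [CharZero K] {D : ND K r} {n k : ℕ} (hD : D.Ok n k) (hn : 0 < n) (hk : 0 < k)
    {m0 : GM r K} (h0 : OnG D k m0) {u : GU r n k → K} (heq : ∀ e, geqn D n k (gcrv n k m0 u) e = 0) :
    OnG0 D k (gcrv n k m0 u) ∧
      (gcrv n k m0 u).rhs D = (gcrv n k m0 u).y ^ 2 + C (-(dfY D (gcrv n k m0 u)).coeff (6 * n)) * X ^ (6 * n) ∧
      (gcrv n k m0 u).map (evalRingHom 0) = m0 := by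
  set c := gcrv n k m0 u with hc
  have hat : c.map (evalRingHom 0) = m0 := by
    rw [hc, gcrv_at0]
    refine GM.ext ?_ ?_ ?_ ?_ ?_ ?_ ?_ <;> simp [GM.map]
  have hat' : c.map ((aeval (0 : K) : K[X] →ₐ[K] K) : K[X] →+* K) = m0 := by
    have h1 : ((aeval (0 : K) : K[X] →ₐ[K] K) : K[X] →+* K) = evalRingHom 0 := by
      ext <;> simp
    rw [h1, hat]
  have hT : dfT D k c = 0 := by
    refine zero_of_coeff (dfT_tdeg hD m0 u) ?_ (fun j => heq (.inr (.inl j)))
    have h1 := dfT_map (k := k) D c (aeval (0 : K) : K[X] →ₐ[K] K)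
    rw [hat', h0.tm1] at h1
    exact h1.symm
  have hDm : ∀ i < k, (dfD D c).coeff i = 0 := by
    intro i hi
    refine zero_of_coeff (dfD_tdeg hD m0 u i) ?_ (fun j => heq (.inl (⟨i, hi⟩, j)))
    have h1 := dfD_map D c (aeval (0 : K) : K[X] →ₐ[K] K)
    rw [hat', h0.det] at h1
    have h2 := congrArg (fun p : K[X] => p.coeff i) h1
    simp only [coeff_zero, coeff_map] at h2
    exact h2.symm
  have hpal : Pal k c.md := gcrv_pal h0.pal u
  have hDD : dfD D c = 0 := det_of_half hD hk hpal hT hDm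
  have hYd := dfY_tdeg hD m0 u
  rw [← hc] at hYd
  have hY0 : (dfY D c).coeff 0 = 0 := by
    rw [coeff_zero_eq_eval_zero]
    have h1 := dfY_map D c (aeval (0 : K) : K[X] →ₐ[K] K)
    rw [hat'] at h1
    have h2 : dfY D m0 = 0 := by
      unfold dfY
      rw [h0.eqy, sub_self]
    rw [h2] at h1
    exact h1.symm
  have hY : dfY D c = C ((dfY D c).coeff (6 * n)) * X ^ (6 * n) := by
    ext i
    rw [coeff_C_mul_X_pow]
    split_ifs with hi
    · rw [hi]
    · rcases i with _ | i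
      · exact hY0
      · by_cases hi2 : i < 6 * n - 1
        · exact heq (.inr (.inr ⟨i, hi2⟩))
        · exact coeff_eq_zero_of_natDegree_lt (by omega)
  refine ⟨⟨hpal, hDD, hT⟩, ?_, hat⟩
  have h1 : c.rhs D = c.y ^ 2 - dfY D c := by
    unfold dfY
    ring
  rw [h1, hY]
  simp only [coeff_C_mul_X_pow, if_true, C_neg]
  ring

variable [IsAlgClosed K] [CharZero K]

theorem exists_xcrv {D : Fin c → ND K r} {n : Fin c → ℕ} {k : ℕ} (hD : ∀ i, (D i).Ok (n i) k) (hn : ∀ i, 0 < n i)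
    (hk : 0 < k) (hr : ∑ i, n i ≤ r) (i0 : Fin c) {m0 : Fin c → GM r K} (h0 : ∀ i, OnG (D i) k (m0 i))
    (hl : ∀ i j, (m0 i).lam = (m0 j).lam) : ∃ (C : Fin c → GM r K[X]) (γ : K), IsX D n k i0 m0 C γ := by
  let zX : XU r n k → MvPolynomial (XU r n k) K := fun i => MvPolynomial.X i
  have hev : ∀ (u : XU r n k → K) (e : XE n k i0),
      MvPolynomial.eval u (xeqn D n k i0 m0 zX e) = xeqn D n k i0 m0 u e := by
    intro u e
    have h1 := xeqn_nat (D := D) (i0 := i0) m0 zX (MvPolynomial.aeval u : MvPolynomial (XU r n k) K →ₐ[K] K) e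
    have h2 : (fun i => (MvPolynomial.aeval u : MvPolynomial (XU r n k) K →ₐ[K] K) (zX i)) = u := by
      funext i
      exact MvPolynomial.aeval_X u i
    rw [h2] at h1
    rw [h1]
    rfl
  have hz0 : ∀ i, zc (fun _ : XU r n k => (0 : K)) i = fun _ => 0 := by
    intro i
    funext e
    rcases e with e | e <;> rfl
  obtain ⟨u, hu, hg⟩ := krull' (xcard_lt (k := k) (i0 := i0) hn hr) (fun e => xeqn D n k i0 m0 zX e) (by
    intro e
    rw [hev]
    rcases e with ⟨i, e⟩ | i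
    · show geqn (D i) (n i) k (gcrv (n i) k (m0 i) (zc (fun _ : XU r n k => (0 : K)) i)) e = 0
      rw [hz0]
      exact geqn_zero (h0 i) e
    · show (dfY (D i.1) (gcrv (n i.1) k (m0 i.1) (zc (fun _ : XU r n k => (0 : K)) i.1))).coeff (6 * n i.1) = 0
      rw [hz0]
      exact dfY_gcrv_zero (h0 i.1) _)
  have heq : ∀ e, xeqn D n k i0 m0 u e = 0 := by
    intro e
    rw [← hev]
    exact hg e
  have hcol := fun i => col_of_eqn (hD i) (hn i) hk (h0 i) (fun e => heq (.inl ⟨i, e⟩))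
  refine ⟨fun i => gcrv (n i) k (m0 i) (zc u i),
    -(dfY (D i0) (gcrv (n i0) k (m0 i0) (zc u i0))).coeff (6 * n i0), fun i => (hcol i).1, fun i => ?_,
    fun i => (hcol i).2.2, fun i j => gcrv_lam_deg (m0 i) _ j, fun i j => ?_, fun i => gcrv_y_deg (m0 i) _, ?_⟩
  · rw [(hcol i).2.1]
    by_cases hi : i = i0
    · subst hi
      rw [if_pos rfl]
    · have h1 : (dfY (D i) (gcrv (n i) k (m0 i) (zc u i))).coeff (6 * n i) = 0 := heq (.inr ⟨i, hi⟩)
      rw [h1, if_neg hi, neg_zero]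
  · funext l
    show algebraMap K K[X] ((m0 i).lam l) + Polynomial.C (zc u i (.inl l)) * X =
      algebraMap K K[X] ((m0 j).lam l) + Polynomial.C (zc u j (.inl l)) * X
    rw [hl i j]
    rfl
  · by_contra hcon
    push Not at hcon
    apply hu
    have h1 := fun i => gcrv_inj (m0 i) (zc u i) (hcon i)
    funext e
    rcases e with e | ⟨i, e⟩
    · exact congrFun (h1 i0) (.inl e)
    · exact congrFun (h1 i) (.inr e)

end H71.EX
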